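import Pool.Agent.Run7.h152.PC.Frob

/-!
# Conjecture D and the injectivity conjecture for products of K3 surfaces, abelian varieties, …

Let `k` be a field (algebraically closed in the applications) of any characteristic, `W` a Weil
cohomology with any coefficient field `K` of characteristic zero (for instance `ℚ_ℓ`), and `𝒢` a set of
symmetries of `W` (for instance a Galois group).

A variety `X` *has a conjugation* (`HasConj`) if there is a divisor `D` with hard Lefschetz and the
conjecture of Lefschetz type, and an operator `e` on `H(X)` which is given by a cycle of codimension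
`dim X` on `X × X` and commutes with the multiplication by the class of `D`, is annihilated by a
squarefree polynomial `P` with rational coefficients, has the transpose `Q(e)`, where `Q(z)` is the
complex conjugate of `z` for the complex roots `z` of `P`, and such that the kernels of the `f(e)` on
the `H^i(X)`, for the irreducible factors `f` of `P` over `K`, are irreducible under the algebraic
correspondences and `𝒢`.

**Examples.** 1. Let `X` be a variety over a finite field with `q` elements such that the Frobenius
`π` is semisimple on the `ℓ`-adic cohomology of `X`, the conjecture of Lefschetz type holds, and the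
Tate conjecture holds for the endomorphisms of the `H^i(X)` (the Tate conjecture for `X × X` in the
middle codimension): `LefschetzType`, `IsTateFrobenius`. Part 0 of the theorem says that `X` has a
conjugation over the algebraic closure: `e = q ^ (-⌊i / 2⌋) π` on `H^i(X)`, which is an algebraic
correspondence with rational coefficients, has the transpose `e⁻¹` in even and `q e⁻¹` in odd degrees
and eigenvalues of absolute values `1` and `q ^ (1 / 2)`. The kernels are irreducible since the
algebraic correspondences span the commutant of `π`. So curves and, by the theorem of Ito, Ito and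
Koshikawa, all K3 surfaces over finite fields have a conjugation, for all `ℓ`. If the eigenvalues of
`π` on the `H^i(X)` are distinct, the condition on the commutant is automatically true, since powers
of `π` are algebraic: so all complete intersections over finite fields, of any dimension, with distinct
Frobenius eigenvalues have a conjugation, for all `ℓ`. 2. Over other fields: `X`
with a field `F` of algebraic endomorphisms of the transcendental cohomology `T(X)`, totally real or CM
with the transposition as complex conjugation, such that `T(X)` is irreducible over `F ⊗ K` for the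
Galois group `𝒢`: for instance K3 surfaces with large monodromy, or with enough algebraic endomorphisms
of `T(X)`.

**Theorem.** Let `𝒴` be any set of varieties such that the conjecture D holds for all products of
members of `𝒴` (for instance a point).

0. Varieties as in Example 1 have a conjugation.

1. Let `X` have a conjugation, and let `Y` be a product of members of `𝒴`. For all `n` and `j`
conjecture D in codimension `j` for `X ^ n × Y` is *equivalent* to Tate's injectivity conjecture `I` in
codimension `j` for `X ^ n × Y`: cycles of codimension `j` with classes which are linearly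
independent over `ℚ` have classes which are linearly independent over `K`. It holds if the cycles of
codimension `j` on `X ^ n × Y` specialize to a variety, over any field, for which D or `I` holds in
codimension `j`.

2. Let `𝒳` be a set of varieties with conjugations and `𝒜` a set of abelian varieties, closed under
products, with an endomorphism which has the same property on `H^1` (for `ℓ`-adic cohomology these are
all abelian varieties, by the theorems of Tate, Zarhin and Faltings), and let some member of `𝒴` have a
zero-cycle of nonzero degree. Conjecture D holds for all products of members of `𝒜`, `𝒳` and `𝒴` if and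
only if `I` holds for all these. It holds, also for all varieties dominated by such products, if
each product has (in each codimension) a reduction for which D or `I` is true.

So conjecture D for the products of abelian varieties, curves and K3 surfaces (with conjugations) over
all fields of characteristic `p` follows, for each `ℓ`, from D (or only `I`) for products of such over
finite fields; and over finite fields it is equivalent to `I`, codimension by codimension for
`X ^ n × Y`. It is easy that D implies `I` (Tate). The other implication was known only together with
the surjectivity in Tate's conjecture; D is not known to lift from special fibres in general, since more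
cycles on the special fibre give more conditions. For abelian varieties and the products `A × Y` see
the result `MP_f569db_ag.AbelianReductions`, by the same method; powers of other varieties need the
filtration of `H(X)` below instead of weights on `H^1`.

Proof. By the starting theorem `MP_f569db_ag.WeightFiltration` there is a self-dual filtration of
`H(X)`, stable under algebraic correspondences and symmetries, such that the classes of numerically
trivial cycles on `X ^ n × Y` have positive weights. By irreducibility the kernels `V i f` of the `f(e)`
on the `H^i(X)` have weights `w i f`; by duality and the conjecture of Lefschetz type (Lefschetz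
isomorphisms and their inverses are compatible with the filtration and with `e`),
`w i (bar f) = - w i f` for the factor `bar f` of the complex conjugate roots. Let the class of a
numerically trivial cycle `z` have a nonzero component in `V (i 1) (f 1) ⊗ … ⊗ V (i n) (f n) ⊗ H(Y)`, so
that the sum of the `w (i s) (f s)` is positive. The component for eigenvalues `b 1, …, b n` of `e` (over
an algebraic closure of `K`) is obtained from `z` by a combination of algebraic correspondences with
rational coefficients, the coefficients of which are polynomials in the `b s`; if the component for the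
complex conjugates of the `b s` were zero, then by `I`, which makes relations between classes over
`K` rational, the component for the `b s` would be zero, too. So the conjugate component is not zero and
has a positive weight, but this is minus the weight of the first one.
-/

set_option autoImplicit false

open CategoryTheory AlgebraicGeometry

universe u v u' v'

namespace Pool.Agent.Results.MP_5f0950_ag.InjectivityForProducts

open Pool.Agent.H914 Pool.Agent.H914.VarClass Run7.h152.DR Run7.h152.PC

/-- **Conjecture D is equivalent to the injectivity conjecture, and lifts from special fibres, for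
products of varieties with conjugations, abelian varieties and varieties with D.** -/
theorem result {k : Type u} [Field k] {𝒱 : VarClass k} {ops : CycleOps 𝒱}
    (W : WeilCohomology.{u, v} ops) (𝒢 : Set (Sym W)) (𝒴 : Set 𝒱.Obj)
    (h𝒴 : ∀ Y, IsProductOf 𝒴 Y → ConjD W Y) :
    (∀ (X : 𝒱.Obj) (D : X.Cycles) (f : X ⟶ X) (q : ℕ), LefschetzType W X D →
      IsTateFrobenius W D f q → HasConj W 𝒢 X) ∧
    (∀ X, HasConj W 𝒢 X → ∀ Y, IsProductOf 𝒴 Y → ∀ n j,
      (HomNumAt W (powTimes X Y n) j ↔ TateInjective W (powTimes X Y n) j) ∧
      (GoodReduction.{u, v, u', v'} W (powTimes X Y n) j → HomNumAt W (powTimes X Y n) j)) ∧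
    ∀ 𝒜 𝒳 : Set 𝒱.Obj, (∀ A ∈ 𝒜, IsAbVar W 𝒢 A) → (∀ A ∈ 𝒜, ∀ B ∈ 𝒜, A.prod B ∈ 𝒜) →
      (∀ X ∈ 𝒳, HasConj W 𝒢 X) → HasZeroCycle 𝒴 →
      ((∀ Z, IsProductOf (𝒜 ∪ 𝒴 ∪ 𝒳) Z → ConjD W Z) ↔
        ∀ Z, IsProductOf (𝒜 ∪ 𝒴 ∪ 𝒳) Z → ∀ j, TateInjective W Z j) ∧
      ((∀ Z, IsProductOf (𝒜 ∪ 𝒴 ∪ 𝒳) Z → ∀ j, GoodReduction.{u, v, u', v'} W Z j) →
        ∀ Z, IsProductOf (𝒜 ∪ 𝒴 ∪ 𝒳) Z → ∀ V, Dominates W Z V → ConjD W V) := by
  have h𝒴' : ∀ Y, IsProductOf 𝒴 Y → HomEqNum W Y := fun Y hY => conjD_iff.1 (h𝒴 Y hY)
  have key : ∀ X, HasConj W 𝒢 X → ∀ Y, IsProductOf 𝒴 Y → ∀ n j,
      TateInjective W (powTimes X Y n) j → HomNumAt W (powTimes X Y n) j := by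
    intro X hX Y hY n j hI
    obtain ⟨D, E, P, Q, hE⟩ := hX.hasConjugation
    rw [tateInjective_iff, powTimes_eq] at hI
    rw [homNumAt_iff, powTimes_eq]
    exact Run7.h152.PW.homEqNumAt_of_injective hE h𝒴' hY hI
  have key' : ∀ 𝒜 𝒳 : Set 𝒱.Obj, (∀ A ∈ 𝒜, IsAbVar W 𝒢 A) → (∀ A ∈ 𝒜, ∀ B ∈ 𝒜, A.prod B ∈ 𝒜) →
      (∀ X ∈ 𝒳, HasConj W 𝒢 X) → HasZeroCycle 𝒴 →
      (∀ Z, IsProductOf (𝒜 ∪ 𝒴 ∪ 𝒳) Z → ∀ j, TateInjective W Z j) →
      ∀ Z, IsProductOf (𝒜 ∪ 𝒴 ∪ 𝒳) Z → HomEqNum W Z := by
    intro 𝒜 𝒳 h𝒜 hprod h𝒳 h0 h
    exact Run7.h152.PW.all_products (fun A hA => isConjugationAbelian (h𝒜 A hA)) hprod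
      (fun X hX => (h𝒳 X hX).hasConjugation) h𝒴' h0 fun Z hZ j => tateInjective_iff.1 (h Z hZ j)
  refine ⟨fun X D f q hL h => hasConj_of_frobenius hL h,
    fun X hX Y hY n j => ⟨⟨fun h => ?_, key X hX Y hY n j⟩,
    fun h => key X hX Y hY n j h.tateInjective⟩,
    fun 𝒜 𝒳 h𝒜 hprod h𝒳 h0 => ⟨⟨fun h Z hZ j => ?_, fun h Z hZ => ?_⟩, fun h Z hZ V hV => ?_⟩⟩
  · exact tateInjective_iff.2 (Run7.h152.LI.injectiveAt_of_homEqNumAt (homNumAt_iff.1 h))
  · exact tateInjective_iff.2 (Run7.h152.LI.injectiveAt_of_homEqNumAt (homNumAt_iff.1 (h Z hZ j)))
  · exact conjD_iff.2 (key' 𝒜 𝒳 h𝒜 hprod h𝒳 h0 h Z hZ)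
  · exact conjD_iff.2 ((key' 𝒜 𝒳 h𝒜 hprod h𝒳 h0 (fun Z hZ j => (h Z hZ j).tateInjective) Z
      hZ).image hV)

end Pool.Agent.Results.MP_5f0950_ag.InjectivityForProducts
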