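import Pool.Agent.Run7.h552.NG.GB

/-!
# The conjecture D for products with a variety which is not entangled with the factors

Let `k` be the algebraic closure of a field `F₀` which is finitely generated over a finite field, `Γ`
the Galois group of `F₀`, `W` the `ℓ`-adic cohomology with coefficients in an algebraic closure of
`ℚ_ℓ`, `χ` the inverse of the cyclotomic character. The theorem is proved for an abstract Weil
cohomology theory whose coefficient field is isomorphic to the complex numbers, with actions of a
group `Γ` on the cohomology rings of varieties (`GVar`).

Let `X_i` be varieties *of even or odd dimension* with divisors which satisfy the hard Lefschetz theorem
and the standard conjectures of Lefschetz and of Hodge type (for example curves and surfaces), whose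
transcendental cohomology `T_i` (the orthogonal complement of all algebraic classes) is in the middle
degree and irreducible under every open subgroup. Suppose that every `T_i` satisfies one of the
following local conditions, *each variety at a place of its own, which has nothing to do with the
places for the other varieties*. For odd dimension (the form on `T_i` is alternating):

* (height one) a Frobenius element at a place of good reduction has on `T_i` the slopes `h + 3 c` and
  `h - 3 c`, once each, and other slopes between `h - c` and `h + c`, and one of the latter is
  strictly between; or none is, but `dim T_i = 2 q + 2` with `q` different from `1`, `3`, `6`, `9`,
  `15`, `27`, and `T_i` is not a tensor product with a factor of dimension two. For Calabi-Yau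
  threefolds (`h = 3 / 2`, `c = 1 / 2`) this says that the Artin-Mazur formal group of the reduction
  has height one, and that the reduction is not ordinary or has one of these Betti numbers;
* (isolated slope) a Frobenius element has on `T_i` a slope `a` of multiplicity one, with a different
  dual slope `a'` of multiplicity one, such that the numbers `a - z`, for the slopes `z ≠ a`, are not
  of the form `x - y` with slopes `x ≠ a`, `y ≠ a'`: for example `0` and `3` once and all other slopes
  strictly between `1` and `2`, or (curves) `0` and `1` once and all other slopes `1 / 2`;
* (semistable reduction) there are elements `g` (of inertia groups at any places) with
  `(g - 1) ^ 2 = 0` on `T_i` and with rank two or with coprime defects (see `SmallDefects`), for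
  example one node.

For even dimension (the form is symmetric; `dim T_i = 3` or `dim T_i ≥ 5`):

* (ordinary reduction) a Frobenius element has on `T_i` the slopes `h + c`, `h`, `h - c` with the
  multiplicities `p`, `q`, `p`, where `p = 1`, `q > 0`, `q ≠ 2`, or `p > 1`, `p` and `q` are coprime and
  `2 p ^ 2 (p ^ 2 + 1) < (q - 2 p) (q + p)`: for surfaces of geometric genus `p` with an ordinary
  reduction, for example K3 surfaces, and also for K3 surfaces with a reduction of height `p`;
* (maximal degeneration) an element `g` of an inertia group has on `T_i` the Jordan type of a K3 surface
  of type III: `(g - 1) ^ 3 = 0`, `(g - 1) ^ 2 ≠ 0`, and `g - 1` has rank two.

Suppose that no two of the `T_i` are isomorphic up to a function on `Γ`; the pairs of dimensions `(2, 3)`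
and `(4, 5)` for an alternating and a symmetric `T_i`, and `(8, 8)` for two symmetric ones (where the
Lie algebras have exceptional isomorphisms or automorphisms) are excluded.

Let `Z` be a variety whose cohomology is generated, as an algebra, by classes on which an open subgroup
acts by a power of `χ` (such as algebraic classes) and by stable subspaces `U` such that for every `i`

* either `T_i` and `U` are *not entangled*: there is no Lie algebra `L` of operators on `U`, stable
  under conjugation by `Γ`, with a `Γ`-equivariant homomorphism of Lie algebras from `L` to the
  operators on `T_i` with a noncommutative image (if there is one, then the adjoint representation
  `sp(T_i)` or `so(T_i)` is a subquotient of `End(U)`, so the cohomology of `Z` sees the variety `X_i`);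
  nothing else is assumed about `U`, in particular `Z` may be *any* variety whose cohomology is not
  entangled with the `T_i`, with arbitrary Betti numbers;
* or `U` is small with respect to `T_i`, by slopes or by the rank of `g - 1` at one place, or by the
  dimension: `2 (dim U) ^ 2 < dim T_i (dim T_i - 1)`, or `U` selfdual and `dim U + 1 < dim T_i`. For
  example all products of curves, surfaces and abelian varieties of bounded genus, with any numbers of
  factors, are allowed if the `T_i` are large enough.

**Theorem.** For all different indices `i_1, ..., i_r` and all exponents `n_1, ..., n_r` with
`n_j < dim T_{i_j}` for the factors of even dimension, let `Y` be the product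
`X_{i_1}^{n_1} × ... × X_{i_r}^{n_r} × Z`.

1. Homological and numerical equivalence coincide for `Y` if and only if they coincide for `Z`.
2. If they coincide for `Z` then they coincide for every variety `V` which is dominated by `Y`.

In particular (`Z` a point, a curve, a surface, a threefold for which the conjecture is known) the
conjecture D holds for infinitely many new varieties in all dimensions and in positive
characteristic, for example for everything that is dominated by products of powers of curves, K3
surfaces and Calabi-Yau threefolds.

Nothing is known about common places of degeneration, common Frobenius elements, or about the density
of the places.

Idea: let `L` be the Lie algebra of all simultaneous derivations of the equivariant multilinear maps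
between the representations of subgroups of finite index. It contains, for every place, the operator
which is multiplication by the slope on the generalised eigenspaces of Frobenius, and the logarithms
of the elements `g`. On `T_i` the Lie algebra is the whole symplectic or orthogonal Lie algebra, up to
scalars. By the theorem of Goursat an element of the direction of `T_i` alone belongs to `L`, unless
there is an isomorphism between the Lie algebras of `T_i` and `T_j`, or `T_i` is entangled with one of
the `U`: the images of (the commutators of) `L` in `End(U)` and in `End(T_i)` are connected by an
equivariant homomorphism. An isomorphism between symplectic Lie algebras maps the elements of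
rank one to elements of rank one, since these are characterised by `[x, [x, y]] ∈ K x` for all `y`; for
orthogonal Lie algebras the same is done with the operators of the isotropic planes, and a symplectic
and an orthogonal Lie algebra are compared by the extremal elements and their brackets. Hence it comes
from a linear isomorphism `T_i → T_j` which is unique up to scalars, hence equivariant up to a function
on `Γ`. This is the reason why no common place is needed. For the small spaces it is excluded by counting.
Then the first fundamental theorems for the symplectic and orthogonal groups, with values in the
cohomology of the other factors, show that the algebraic classes of the product are generated by those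
of the factors, and that the intersection form on them is the product of the forms of the factors.
-/

universe u

namespace Pool.Agent.Results.MP_5f0950_ag.NoEntanglement

open Pool.Agent.H914 Pool.Agent.H914.WeilCohomology Run7.h552.NG
open Pool.Agent.TH125.Gal (GVar)
open Run7.h552.MX.C (prodOf)

/-- **The conjecture D for products of powers of varieties with symplectic or orthogonal monodromy and a
variety which is not entangled with them is equivalent to the conjecture for the latter; it follows
for everything that is dominated by such a product.** -/
theorem result {k : Type u} [Field k] {𝒱 : VarClass k} {ops : CycleOps 𝒱}
    {W : WeilCohomology.{u, 0} ops} (e : Nonempty (W.K ≃+* ℂ)) {Γ : Type} [Group Γ]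
    {χ : CharOf W Γ} {G : Set (GVar W Γ)} {ι : Type} {X : ι → GVar W Γ} {Z : GVar W Γ}
    (h : FreeFamily χ G X Z) (hP : Polarizable X) {L : List (ι × ℕ)} (hL : Admissible X L) :
    (HomEqNum W (prodOf X Z L) ↔ HomEqNum W Z.X) ∧
    (HomEqNum W Z.X → ∀ (V : 𝒱.Obj) (g : prodOf X Z L ⟶ V),
      Pool.Agent.V11219.Bst.Dominant W g → HomEqNum W V) := by
  obtain ⟨e⟩ := e
  have : IsAlgClosed W.K := IsAlgClosed.of_ringEquiv ℂ W.K e.symm
  have h1 := h.homEqNum_iff e hP hL
  exact ⟨h1, fun hZ V g hg => Pool.Agent.V11219.Bst.homEqNum_of_dominant hg (h1.2 hZ)⟩

end Pool.Agent.Results.MP_5f0950_ag.NoEntanglement
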