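import Pool.Agent.Run7.h98.DD.Laws

/-!
# The standard conjecture D from direct summands of positive share

Let `H` be a Weil cohomology (any base field) and `b(Y)` the sum of the Betti numbers of `Y`; cycles
have rational coefficients. Let `Δ` be a set of integers which contains `0` and is closed under
addition, for instance `{0}` or all integers. Let `c(Y)` be the largest rank of a direct summand
`(Y, e)` of the motive of `Y` modulo homological equivalence (`e` an idempotent correspondence of
degree zero) such that homological and numerical equivalence agree for its endomorphisms: if the
cycle `z` on `Y × Y` of codimension `dim Y + d`, `d` in `Δ`, is numerically equivalent to zero, then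
`e z e` is homologically equivalent to zero.

* If numerical equivalence does not imply homological equivalence on `X × X` in the codimensions
  `dim X + d`, `d` in `Δ`, then `c(X^n) ≤ b(X)^n √(2 b(X) / (n + 1))` for all `n ≥ 1`.
* So if `c(X^n) ≥ ε b(X^n)` for infinitely many `n`, for some `ε > 0`, then the conjecture D is true
  for `X × X` in these codimensions.
* The conjecture D is true for all varieties and all codimensions if and only if there is a function
  `f > 0` with `f(y) √(log y) → ∞` such that `c(Y) ≥ f(b(Y)) b(Y)` for all `Y` (with all degrees; if
  all varieties have cycles of complementary dimensions with nonzero intersection numbers, the same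
  with the correspondences of degree zero only).

Proof. Let `ν ≠ 0` be an operator on `H(X)` induced by a numerically trivial cycle, and let
`ν_n = Σ ν_(i)` on `H(X^n)`. The powers of `ν_n` are given by numerically trivial cycles, because the
contractions of correspondences are correspondences, so `e ν_n^k e = 0` for all `k ≥ 1`, and this
implies `rank e ≤ dim ker ν_n`. If `ν` is not nilpotent, `ker ν_n` is contained in the generalized
eigenspace of `ν_n` for the eigenvalue zero, and at most `b(X)^n √(b(X) / (2 (n + 1)))` of the sums of
`n` eigenvalues of `ν` are zero. If `ν` is nilpotent, some power of `ν` is not zero and has square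
zero, so we may assume that `ν² = 0`. Choose `f` with `ν f ν = ν`, `f ν f = f` and `f² = 0`; then `ν`,
`f` and `h = ν f - f ν` span a Lie algebra `sl2`, so `dim ker ν_n` is at most the sum of the
dimensions of the eigenspaces of `h_n = Σ h_(i)` for the eigenvalues `0` and `1`, and these are
bounded as before.
-/

open CategoryTheory AlgebraicGeometry

set_option autoImplicit false

universe u v

namespace Pool.Agent.Results.MP_5f0950_ag.ShareOfPowers

open Pool.Agent.H914 VarClass Obj WeilCohomology Pool.Agent.N103.OC Pool.Agent.Run7.H98.DD

/-- **The conjecture D from direct summands of positive share.** -/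
theorem result {k : Type u} [Field k] {𝒱 : VarClass k} {ops : CycleOps 𝒱}
    (W : WeilCohomology.{u, v} ops) :
    (∀ Δ : AddSubmonoid ℤ, NumLaws W Δ) ∧ (AllHomNum W ↔ SlowShare W (numDim W ⊤)) ∧
      ((∀ X : 𝒱.Obj, DualCycles ops X) → (AllHomNum W ↔ SlowShare W (numDim W ⊥))) :=
  ⟨num_laws W, all_iff W, all_iff' W⟩

end Pool.Agent.Results.MP_5f0950_ag.ShareOfPowers
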