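import Mathlib
import Pool.Agent.Run7.h301.TW.Main
import Pool.Agent.Run7.h301.TW.Examples
import Pool.Agent.Y1.CT.CodimNum

/-!
# Homological and numerical equivalence on products with abelian varieties whose Weil numbers lie in a
forest of CM fields

Let `F v`, `v : V`, be finitely many CM fields with inclusions `F u → F v` for `u ≤ v`, where `V` is a
finite partially ordered set in which the elements below any element form a chain. So `V` is a forest,
and the fields below a given field form a tower: for instance a tower `F 0 ⊂ F 1 ⊂ ... ⊂ F n`, several
towers, or several towers with a common lower part. Let `π i ∈ F (w i)`, `i ∈ I`, be finitely many Weil
numbers for `q = p ^ a`, possibly several in the same field, at any level. We assume: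

* The automorphisms of `ℂ` act on the complex embeddings of the fields as freely as the inclusions
  permit (`FreeForest`). Two embeddings `x` of `F v` and `y` of `F w` agree on `F u` if `u ≤ v`,
  `u ≤ w` and they have the same restriction to `F u` (`Agree`). If `x` and `y` agree on no field of
  the forest, and `x` and `conj y` neither, then some automorphism of `ℂ` fixes `x` and maps `y` to
  `conj y`. If `x` agrees with `y` and with `y'` on the same fields, at least one, then some
  automorphism fixes `x` and maps `y` to `y'`.
* The norms are independent (`IndependentNorms`): for each `i₀` the slope deviations of the norms of
  all the `π i` to all the fields `F u` contained in `F (w i)` and in `F (w i₀)` are linearly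
  independent over `ℚ`, as functions of the embeddings of `F (w i₀)` in the algebraic closure of `ℚ_p`
  (`normDev`; for `F u = F (w i)` it is the slope deviation `2 ord_p (τ (π i)) - a` of `π i`, whose
  values are `a (2 λ - 1)` for the slopes `λ`). Nothing else is assumed on the Newton polygons.

If `x` and `y` agree on a CM field `F u` then no automorphism fixes `x` and maps `y` to `conj y`: the
pair `(x, y)` is rigid. The result `SeveralWeilNumbers` (helper142) of this run treats the case without
rigid pairs, the forests without inclusions, and the fields with rigid pairs are left open there. Every
CM field that contains a smaller CM field has rigid pairs, for instance the fields `k R` with `k`
imaginary quadratic and `R` totally real, and in this case there are abelian varieties with exotic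
classes (the Weil classes). In the theorem the norms to the smaller fields decide: for `k R` with the
Galois group of `R` doubly transitive the condition on one Weil number `π` is that its slopes are not
constant on the embeddings over an embedding of `k` and that their mean value is not `a / 2`; for
ordinary abelian varieties this says that the signature `(r, s)` over `k` satisfies `r s ≠ 0` and
`r ≠ s`.

Let `f i` be monic polynomials whose complex roots are conjugates of `π i` (`IsPolyOf`), for instance
the characteristic polynomials of Frobenius of the abelian varieties over the field with `q` elements in
the isogeny classes of the `π i`. Let `A` be an abelian variety over the field with `Q = q ^ s` elements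
which is isogenous to a product of powers of abelian varieties coming from the field with `q` elements,
with characteristic polynomials `f i`, and let `Z` be **any** smooth projective variety over the field
with `Q` elements such that

* the eigenvalues `ρ` of Frobenius on the cohomology of `Z` and their conjugates are unrelated to
  the fields `F (w i)` (`UnrelatedTo`): a function `n` on the complex embeddings of `F (w i)` with
  `n (conj φ) = - n φ` which is invariant under all automorphisms of `ℂ` that fix a power of `ρ` is
  zero. This is so if for each embedding `ψ` of `F (w i)` some automorphism which fixes a power of `ρ`
  is the complex conjugation on the image of `ψ`: for instance, if a power of `ρ` lies in a field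
  linearly disjoint from the normal closures of the `F (w i)`, or in a totally real field.

The first part of the theorem says (`HomNumTimes`): for every `c` **homological and numerical
equivalence coincide for the cycles of codimension `c` on `A × Z` if and only if they coincide for the
cycles of the codimensions `c - j`, `0 ≤ j ≤ dim A`, on `Z`.** If `Z` is a point it is the standard
conjecture D for `A` in all codimensions; it holds for all cycles on `A × Z` if `Z` is a surface. No
conjecture is assumed, and the cohomology is any Weil cohomology with algebraically closed coefficient
field, for instance `ℓ`-adic cohomology for every `ℓ`, or crystalline cohomology, with extended
coefficients. (For abelian varieties over finite fields Clozel has proved the conjecture for infinitely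
many `ℓ`.) The Frobenius endomorphism acts on `CH^j(A × Z)_ℚ` as multiplication by `Q ^ j`. The
framework (`TheoryData`, `IsChow`, `IsWeil`) is the one of the starting files.

In the second part (`HoldsForMostForestTypes`) the Weil numbers have prescribed slope types. We fix an
isomorphism `ν` of the algebraic closure of `ℚ_p` with `ℂ`. A CM type `Φ` of a CM field `E`, a function
`M` with nonzero integral values on the complex embeddings of `E` and a real number `c ≠ 0` prescribe
the slopes `(a + c M) / 2` (at the embeddings in `Φ`) and `(a - c M) / 2` (outside of `Φ`) of a Weil
number for `p ^ a` in `E` (`HasType`; the case `M = 1`, `c = a` is the case of ordinary abelian
varieties, `M ≠ 0` says that `a / 2` is not a slope). For given `w 0`, ..., `w (r - 1)` and given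
weights `M i` on `F (w i)` **the proportion of the families of CM types `Φ i` of the fields `F (w i)`
for which the conclusion of the first part is false for some Weil numbers with these slope types is at
most** `exceptional F w`, the sum over all `i` and all the fields `F u ⊆ F (w i)` of `b (t) ^ (d - j)`,
where `b (t)` is the largest probability `binomial (t, t / 2) / 2 ^ t` of a value of a sum of `t`
independent signs, `t = [F (w i) : F u]`, `2 d` is the difference of the degrees of `F u` and of the
largest field of the forest below `F u` (or the degree of `F u`, if there is none), and `j` is the
number of the `i' < i` with `F u ⊆ F (w i')`. So almost all families are good if the steps of the towers
are large, or (for the lowest step) if `t` is large and there is one Weil number above it: for one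
ordinary Weil number in `k R` of degree `2 g` the bound is `binomial (g, g / 2) / 2 ^ g + 2 ^ (1 - g)`.

The third part (`ForestExamples`) gives examples of free forests with rigid pairs: the CM fields `E`
with an imaginary quadratic subfield for which the automorphisms of `ℂ` act doubly transitively on the
embeddings of the maximal real subfield `K`. Families of CM fields without rigid pairs are free forests
without inclusions (`freeForest_of_noRigidPairs` in the file TW.Examples), so the first part of the
theorem contains the first part of `SeveralWeilNumbers`.

The condition on the norms is the best possible (`exactInForests` in the file TW.Exact, not used here):
if the inclusions are proper then for Weil numbers that are algebraic integers the independence of the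
norms is equivalent to the maximality of the angle rank, that is, all multiplicative relations between
the conjugates of the `π i` and `p` are trivial. If the norms are dependent then there are exotic
classes on some product of the abelian varieties.

The proof. A multiplicative relation gives a function `c` on the pairs `(i, y)`, `y` an embedding of
`F (w i)`, with `c (i, conj y) = - c (i, y)` and `∑ c (i, y) D i (σ y) = 0` for all automorphisms `σ`,
where `D i` is the slope deviation of `π i`. If `c (i₀, x) ≠ 0` then we take the mean value of the
translates of `c` under the automorphisms (of a finite Galois group) that fix `x`. It is not zero at
`(i₀, x)`. It is zero at `(i, y)` if `x` agrees neither with `y` nor with `conj y` on any field, and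
otherwise it depends only on the fields on which `x` and `y` (or `conj y`) agree. These fields are the
fields below some field, so the mean value is a linear combination of the characteristic functions of
the sets of the `y` that agree with `x` on `F u`, made odd, and the relation becomes a linear relation
between the slope deviations of the norms to the fields `F u`. So the angle rank is maximal
(`MaximalAngleRank`). If there is a number `ρ` in the relation then we compare the relation with its
images under the automorphisms which fix a power of `ρ` (starting files, Y1.CT). For the second part: if the norms are dependent then for some `u` and `i` the
norm to `F u` of the signed weight function of `Φ i` is in the sum of the span of the norms of those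
with smaller index and of the space of the odd functions that come from smaller fields. A subspace of
dimension `d` of the functions on `h` points contains a vector of independent sums of `t` signs with
nonzero weights at most with the probability `b (t) ^ (h - d)`, by the Littlewood-Offord theorem of
Erdős.
-/

set_option autoImplicit false

namespace Pool.Agent.Results.MP_5f0950_ag.WeilNumberForests

open Pool.Agent.Y1.CT Pool.Agent.Run7.h301.TW

/-- **Homological and numerical equivalence coincide for cycles of codimension `c` on `A × Z` if and
only if they coincide for cycles of the codimensions `c - j` on `Z`, `0 ≤ j ≤ dim A`, for the abelian
varieties `A` whose Weil numbers lie in a free forest of CM fields and have independent norms, and all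
unrelated varieties `Z`.** -/
theorem result :
    HoldsInForests (fun I K _ => HomNumTimes (I := I) K) ∧
    HoldsForMostForestTypes (fun I K _ => HomNumTimes (I := I) K) ∧ ForestExamples := by
  refine ⟨holdsInForests ?_, holdsForMostForestTypes ?_, forestExamples⟩
  · intro I K _ q f hq _ hR
    exact homNumTimes hq hR
  · intro I K _ q f hq _ hR
    exact homNumTimes hq hR

end Pool.Agent.Results.MP_5f0950_ag.WeilNumberForests
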